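import Pool.Agent.W279.Tri.Dio

/-!
# Existential formulas given by equations quadratic in each of three variables (helper279)

`F` is an irreducible polynomial of tridegree `(2,2,2)` over a number field `K`, which has only
finitely many singular points in the product of three projective lines over the algebraic closure
and contains no fibre of the projections to two factors; `F(x₀,1,x₁,1,x₂,1)` is a polynomial of
degree at most two in each of the three variables.  We consider the sets of values of rational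
functions at the `K`-rational zeros of `F(x₀,1,x₁,1,x₂,1)`, in particular the sets
`{t : ∃ x y, F(t,1,x,1,y,1) = 0}`, and finite unions of such sets: in each completion of `K` they
have only finitely many isolated points.  For `K = ℚ` no such set is `ℤ`.
-/

set_option autoImplicit false

namespace Pool.Agent.Results.MP_28f2cb_lc.BiquadraticTwoQuantifiers

open MvPolynomial Pool.Agent.W279.Tri

/-- The hypotheses on the polynomial `F`. -/
structure Admissible {K : Type} [Field K] (F : MvPolynomial (Fin 3 × Fin 2) K) : Prop where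
  irreducible : Irreducible F
  /-- `F` has the tridegree `(2,2,2)` -/
  tridegree : ∀ m ∈ F.support, ∀ i : Fin 3, m (i, 0) + m (i, 1) = 2
  /-- no fibre of the projections to two of the factors lies on the surface -/
  noFibre : ∀ (i : Fin 3) (p : Fin 3 → Fin 2 → AlgebraicClosure K), (∀ j, p j ≠ 0) →
    ∃ w : Fin 2 → AlgebraicClosure K,
      aeval (fun q : Fin 3 × Fin 2 => Function.update p i w q.1 q.2) F ≠ 0
  /-- the surface has only finitely many singular points -/
  isolated : ∃ S : Set (Fin 3 → Fin 2 → AlgebraicClosure K), S.Finite ∧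
    ∀ p : Fin 3 → Fin 2 → AlgebraicClosure K, (∀ i, p i ≠ 0) →
      (∀ q : Fin 3 × Fin 2, aeval (fun r : Fin 3 × Fin 2 => p r.1 r.2) (pderiv q F) = 0) →
      ∃ s ∈ S, ∀ i, ∃ t : AlgebraicClosure K, p i = t • s i

/-- The six coordinates of `(x₀ : 1, x₁ : 1, x₂ : 1)`. -/
def aff {R : Type} [One R] (x : Fin 3 → R) (q : Fin 3 × Fin 2) : R :=
  if q.2 = 0 then x q.1 else 1

/-- The union, over `j`, of the sets of the values of `p j / q j` at the rational zeros of
`F j (x₀,1,x₁,1,x₂,1)`. -/
def values {K : Type} [Field K] {ι : Type} (F : ι → MvPolynomial (Fin 3 × Fin 2) K)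
    (p q : ι → MvPolynomial (Fin 3) K) : Set K :=
  {a | ∃ (j : ι) (x : Fin 3 → K), eval (aff x) (F j) = 0 ∧ eval x (q j) ≠ 0 ∧
    a = eval x (p j) / eval x (q j)}

theorem result :
    -- the sets of values have finitely many isolated points in every completion
    (∀ (K : Type) [Field K] [NumberField K] (ι : Type) [Finite ι]
      (F : ι → MvPolynomial (Fin 3 × Fin 2) K) (p q : ι → MvPolynomial (Fin 3) K),
      (∀ j, Admissible (F j)) →
      ∀ (L : Type) [NontriviallyNormedField L] [CompleteSpace L] (σ : K →+* L), DenseRange σ →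
        {a ∈ values F p q | ∃ U ∈ nhds (σ a), ∀ b ∈ values F p q, σ b ∈ U → b = a}.Finite) ∧
    -- in particular they are not the set of the integers
    (∀ (ι : Type) [Finite ι] (F : ι → MvPolynomial (Fin 3 × Fin 2) ℚ)
      (p q : ι → MvPolynomial (Fin 3) ℚ), (∀ j, Admissible (F j)) →
      values F p q ≠ Set.range ((↑) : ℤ → ℚ)) ∧
    -- nor do formulas `∃ x y, F(t,1,x,1,y,1) = 0` define the integers
    (∀ F : MvPolynomial (Fin 3 × Fin 2) ℚ, Admissible F →
      {t : ℚ | ∃ x y : ℚ, eval (aff ![t, x, y]) F = 0} ≠ Set.range ((↑) : ℤ → ℚ)) := by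
  have haf : ∀ {K : Type} [Field K] (x : Fin 3 → K), aff x = fun q => afp x q.1 q.2 := by
    intro K _ x
    funext ⟨i, a⟩
    fin_cases a <;> simp [aff, afp]
  have h1 : ∀ (K : Type) [Field K] [NumberField K] (ι : Type) [Finite ι]
      (F : ι → MvPolynomial (Fin 3 × Fin 2) K) (p q : ι → MvPolynomial (Fin 3) K),
      (∀ j, Admissible (F j)) →
      ∀ (L : Type) [NontriviallyNormedField L] [CompleteSpace L] (σ : K →+* L), DenseRange σ →
        {a ∈ values F p q | ∃ U ∈ nhds (σ a), ∀ b ∈ values F p q, σ b ∈ U → b = a}.Finite := by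
    intro K _ _ ι _ F p q hF L _ _ σ hσ
    have hval : ∀ j, vals (F j) (p j) (q j) ⊆ values F p q := by
      rintro j a ⟨x, hx, hq, ha⟩
      exact ⟨j, x, by rw [haf]; exact hx, hq, ha⟩
    refine (Set.finite_iUnion fun j => (?_ : (isol (vals (F j) (p j) (q j)) σ).Finite)).subset ?_
    · obtain ⟨c, hc⟩ := exists_form (hF j).tridegree
      have hj := hF j
      rw [hc] at hj ⊢
      obtain ⟨T, hT, -, h⟩ := main_form hj.irreducible hj.noFibre hj.isolated
      exact isol_finite hT (fun x hx => h L σ hσ x hx) (p j) (q j)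
    · rintro a ⟨⟨j, x, hx, hq, ha⟩, U, hU, hUA⟩
      refine Set.mem_iUnion.2 ⟨j, ⟨x, by rw [haf] at hx; exact hx, hq, ha⟩, U, hU,
        fun b hb hbU => hUA b (hval j hb) hbU⟩
  have h2 : ∀ (ι : Type) [Finite ι] (F : ι → MvPolynomial (Fin 3 × Fin 2) ℚ)
      (p q : ι → MvPolynomial (Fin 3) ℚ), (∀ j, Admissible (F j)) →
      values F p q ≠ Set.range ((↑) : ℤ → ℚ) := by
    intro ι _ F p q hF heq
    have h3 := h1 ℚ ι F p q hF ℝ (algebraMap ℚ ℝ) Rat.denseRange_cast
    rw [heq] at h3
    have h4 : Set.range ((↑) : ℤ → ℚ) ⊆ {a ∈ Set.range ((↑) : ℤ → ℚ) |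
        ∃ U ∈ nhds (algebraMap ℚ ℝ a), ∀ b ∈ Set.range ((↑) : ℤ → ℚ),
          algebraMap ℚ ℝ b ∈ U → b = a} := by
      rintro _ ⟨n, rfl⟩
      refine ⟨⟨n, rfl⟩, Metric.ball _ 1, Metric.ball_mem_nhds _ one_pos, ?_⟩
      rintro _ ⟨m, rfl⟩ hm
      simp only [Metric.mem_ball, map_intCast, Real.dist_eq] at hm
      have h5 : |m - n| < 1 := by exact_mod_cast hm
      have : m - n = 0 := Int.abs_lt_one_iff.1 h5
      have : m = n := by omega
      rw [this]
    have h5 := h3.subset h4
    exact (Set.infinite_range_of_injective Int.cast_injective) h5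
  refine ⟨h1, h2, ?_⟩
  intro F hF heq
  refine h2 Unit (fun _ => F) (fun _ => X 0) (fun _ => 1) (fun _ => hF) ?_
  rw [← heq]
  ext a
  constructor
  · rintro ⟨_, x, hx, -, ha⟩
    rw [map_one, div_one, eval_X] at ha
    refine ⟨x 1, x 2, ?_⟩
    have e : ![a, x 1, x 2] = x := by
      funext i
      fin_cases i
      · exact ha
      · rfl
      · rfl
    rw [e]
    exact hx
  · rintro ⟨x, y, h⟩
    exact ⟨(), ![a, x, y], h, by simp, by simp⟩

end Pool.Agent.Results.MP_28f2cb_lc.BiquadraticTwoQuantifiers
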